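import Mathlib
import Pool.Agent.V11172.SeqGen

namespace Pool.Agent.Results.MP_98b1c4_co.TypeAPair

open Pool.Agent.V11172.SeqGen

/-- *Regular type A sequences*: start with `(1,1)`; at each step put in front a term equal to the
sum of the first `j ≥ 1` current terms, or at the end a term equal to the sum of the last `j ≥ 1`
current terms. -/
inductive RegA : List ℕ → Prop
  | base : RegA [1, 1]
  | left (d : List ℕ) (j : ℕ) : RegA d → 1 ≤ j → j ≤ d.length → RegA ((d.take j).sum :: d)
  | right (d : List ℕ) (j : ℕ) : RegA d → 1 ≤ j → j ≤ d.length →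
      RegA (d ++ [(d.drop (d.length - j)).sum])

/-- `a(k_1,…,k_m)`: the least `n` such that some regular type A sequence of length `n` contains
some ordering of the multiset `{k_1,…,k_m}` as a subsequence. (`ks.Subperm d` says that some
permutation of the list `ks` is a sublist of `d`.) -/
noncomputable def a (ks : List ℕ) : ℕ := sInf {n | ∃ d, RegA d ∧ d.length = n ∧ ks.Subperm d}

/-- all one-step extensions (type A) -/
def extA (d : List ℕ) : List (List ℕ) :=
  (List.range d.length).flatMap (fun j => [(d.take (j + 1)).sum :: d,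
    d ++ [(d.drop (d.length - (j + 1))).sum]])

lemma sum_take_le (d : List ℕ) (j : ℕ) : (d.take j).sum ≤ d.sum := by
  conv_rhs => rw [← List.take_append_drop j d]
  rw [List.sum_append]; omega

lemma sum_drop_le (d : List ℕ) (j : ℕ) : (d.drop j).sum ≤ d.sum := by
  conv_rhs => rw [← List.take_append_drop j d]
  rw [List.sum_append]; omega

lemma RegA.len {d : List ℕ} (h : RegA d) : 2 ≤ d.length := by
  induction h with
  | base => simp
  | left d j _ _ _ ih => simp; omega
  | right d j _ _ _ ih => simp; omega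

lemma goodA : Good RegA extA where
  step := by
    intro d hd hl
    cases hd with
    | base => simp at hl
    | left d j h h1 h2 =>
      refine ⟨d, h, ?_⟩
      unfold extA
      rw [List.mem_flatMap]
      exact ⟨j - 1, by rw [List.mem_range]; omega, by
        rw [Nat.sub_add_cancel h1]; simp⟩
    | right d j h h1 h2 =>
      refine ⟨d, h, ?_⟩
      unfold extA
      rw [List.mem_flatMap]
      exact ⟨j - 1, by rw [List.mem_range]; omega, by
        rw [Nat.sub_add_cancel h1]; simp⟩
  base := by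
    intro d hd hl
    cases hd with
    | base => simp
    | left d j h h1 h2 => have := h.len; simp at hl; omega
    | right d j h h1 h2 => have := h.len; simp at hl; omega
  base2 := by
    intro d hd hl
    cases hd with
    | base => rfl
    | left d j h h1 h2 => have := h.len; simp at hl; omega
    | right d j h h1 h2 => have := h.len; simp at hl; omega
  shape := by
    intro d e he
    unfold extA at he
    rw [List.mem_flatMap] at he
    obtain ⟨j, _, hj⟩ := he
    simp only [List.mem_cons, List.not_mem_nil, or_false] at hj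
    rcases hj with rfl | rfl
    · exact ⟨_, sum_take_le d _, Or.inl rfl⟩
    · exact ⟨_, sum_drop_le d _, Or.inr rfl⟩

/-- pruning thresholds -/
def thr : ℕ → ℕ
  | 0 => 2
  | 1 => 4
  | 2 => 8
  | 3 => 15
  | 4 => 29
  | 5 => 57
  | n + 6 => 57 * 2 ^ (n + 1)

lemma thr_spec (n : ℕ) : 2 * thr n < thr (n + 1) + 2 := by
  rcases n with _ | _ | _ | _ | _ | _ | n
  · decide
  · decide
  · decide
  · decide
  · decide
  · decide
  · change 2 * (57 * 2 ^ (n + 1)) < 57 * 2 ^ (n + 1 + 1) + 2
    rw [pow_succ 2 (n + 1)]; omega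

set_option maxRecDepth 100000 in
lemma checkA : ∀ d ∈ L extA thr 5, ∀ e ∈ extA d, (57 ∈ e ∨ 62 ∈ e) → ∀ f ∈ extA e,
    ¬ (57 ∈ f ∧ 62 ∈ f) := by
  decide +kernel

lemma noA {d : List ℕ} (hd : RegA d) (hl : d.length ≤ 9) : ¬ (57 ∈ d ∧ 62 ∈ d) :=
  goodA.no_nine thr thr_spec (by norm_num) (by norm_num) (by norm_num) (by decide) (by decide)
    checkA hd hl

lemma seq62 : RegA [62, 32, 16, 8, 4, 2, 1, 1] := by
  have h0 : RegA [1, 1] := RegA.base
  have h1 : RegA [2, 1, 1] := RegA.left _ 2 h0 (by simp) (by simp)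
  have h2 : RegA [4, 2, 1, 1] := RegA.left _ 3 h1 (by simp) (by simp)
  have h3 : RegA [8, 4, 2, 1, 1] := RegA.left _ 4 h2 (by simp) (by simp)
  have h4 : RegA [16, 8, 4, 2, 1, 1] := RegA.left _ 5 h3 (by simp) (by simp)
  have h5 : RegA [32, 16, 8, 4, 2, 1, 1] := RegA.left _ 6 h4 (by simp) (by simp)
  have h6 : RegA [62, 32, 16, 8, 4, 2, 1, 1] := RegA.left _ 5 h5 (by simp) (by simp)
  exact h6

lemma seqPair : RegA [24, 16, 8, 4, 2, 1, 1, 1, 57, 62] := by
  have h0 : RegA [1, 1] := RegA.base
  have h1 : RegA [2, 1, 1] := RegA.left _ 2 h0 (by simp) (by simp)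
  have h2 : RegA [4, 2, 1, 1] := RegA.left _ 3 h1 (by simp) (by simp)
  have h3 : RegA [8, 4, 2, 1, 1] := RegA.left _ 4 h2 (by simp) (by simp)
  have h4 : RegA [16, 8, 4, 2, 1, 1] := RegA.left _ 5 h3 (by simp) (by simp)
  have h5 : RegA [24, 16, 8, 4, 2, 1, 1] := RegA.left _ 2 h4 (by simp) (by simp)
  have h6 : RegA [24, 16, 8, 4, 2, 1, 1, 1] := RegA.right _ 1 h5 (by simp) (by simp)
  have h7 : RegA [24, 16, 8, 4, 2, 1, 1, 1, 57] := RegA.right _ 8 h6 (by simp) (by simp)
  have h8 : RegA [24, 16, 8, 4, 2, 1, 1, 1, 57, 62] := RegA.right _ 5 h7 (by simp) (by simp)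
  exact h8

lemma a62 : a [62] = 8 := by
  unfold a
  apply le_antisymm
  · apply Nat.sInf_le
    exact ⟨_, seq62, rfl, List.subperm_of_subset (by decide) (by decide)⟩
  · refine le_csInf ?_ ?_
    · exact ⟨8, _, seq62, rfl, List.subperm_of_subset (by decide) (by decide)⟩
    rintro n ⟨d, hd, hl, hs⟩
    have hm : 62 ∈ d := hs.subset (by simp)
    by_contra hn
    have := goodA.small 5 d hd (by omega) 62 hm
    omega

lemma aPair : a [57, 62] = 10 := by
  unfold a
  apply le_antisymm
  · apply Nat.sInf_le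
    exact ⟨_, seqPair, rfl, List.subperm_of_subset (by decide) (by decide)⟩
  · refine le_csInf ?_ ?_
    · exact ⟨10, _, seqPair, rfl, List.subperm_of_subset (by decide) (by decide)⟩
    rintro n ⟨d, hd, hl, hs⟩
    by_contra hn
    exact noA hd (by omega) ⟨hs.subset (by simp), hs.subset (by simp)⟩

/-- `a(62) = 8` and `a(57,62) = 10`; hence the inequality `a(k₁,k₂) ≤ a(k₂) + 1` fails for
`k₁ = 57 ≤ k₂ = 62`. -/
theorem result : (a [62] = 8 ∧ a [57, 62] = 10) ∧
    ¬ ∀ k₁ k₂ : ℕ, 0 < k₁ → k₁ ≤ k₂ → a [k₁, k₂] ≤ a [k₂] + 1 := by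
  refine ⟨⟨a62, aPair⟩, fun h => ?_⟩
  have := h 57 62 (by norm_num) (by norm_num)
  rw [a62, aPair] at this
  omega

end Pool.Agent.Results.MP_98b1c4_co.TypeAPair
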